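import Pool.Agent.helper55.ZI.Spec2

/-!
# Project ZI, row STP: the step lemma
-/

set_option autoImplicit false

namespace Pool.Agent.helper96.ZI

open Pool.Agent.ZI

universe u

lemma stp_inv {A' V' : Type u} [Ring A'] [AddCommGroup V'] [Module A' V'] [IsSimpleModule A' V']
    (f : V' →ₗ[A'] V') (hf : f ≠ 0) :
    ∃ g : V' →ₗ[A'] V', (∀ v, g (f v) = v) ∧ ∀ v, f (g v) = v := by
  rcases f.bijective_or_eq_zero with h | h
  · refine ⟨(LinearEquiv.ofBijective f h).symm.toLinearMap, ?_, ?_⟩
    · intro v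
      exact (LinearEquiv.ofBijective f h).symm_apply_apply v
    · intro v
      exact (LinearEquiv.ofBijective f h).apply_symm_apply v
  · exact absurd h hf

lemma stp_J {A V : Type u} [Ring A] [AddCommGroup V] [Module A V] [IsSimpleModule A V] {b : ℕ}
    (y : Fin b → V) (ν : ℕ) (hS : Small A y ν) :
    ∃ (J : Finset (Fin b)) (κ : Fin b → Fin b → (V →ₗ[A] V)), J.card ≤ ν ∧
      (∀ l : Fin b → (V →ₗ[A] V), (∀ j ∈ J, l j = 0) → ∑ i, l i (y i) = 0 → ∀ i, l i = 0) ∧
      (∀ j i, i ∈ J → κ j i = 0) ∧ (∀ j, y j = ∑ i, κ j i (y i)) ∧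
      (∀ j, j ∉ J → ∀ i, κ j i = if i = j then LinearMap.id else 0) := by
  classical
  obtain ⟨J₀, hJ₀, hP₀⟩ := hS
  have hex : ∃ n, ∃ J : Finset (Fin b), (∀ l : Fin b → (V →ₗ[A] V), (∀ j ∈ J, l j = 0) →
      ∑ i, l i (y i) = 0 → ∀ i, l i = 0) ∧ J.card = n := ⟨_, J₀, hP₀, rfl⟩
  obtain ⟨J, hPJ, hJn⟩ := Nat.find_spec hex
  have hmin : ∀ J' : Finset (Fin b), (∀ l : Fin b → (V →ₗ[A] V), (∀ j ∈ J', l j = 0) →
      ∑ i, l i (y i) = 0 → ∀ i, l i = 0) → J.card ≤ J'.card := by
    intro J' h
    rw [hJn]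
    exact Nat.find_min' hex ⟨J', h, rfl⟩
  have hk : ∀ j, ∃ k : Fin b → (V →ₗ[A] V), (∀ i, i ∈ J → k i = 0) ∧ (y j = ∑ i, k i (y i)) ∧
      (j ∉ J → ∀ i, k i = if i = j then LinearMap.id else 0) := by
    intro j
    by_cases hj : j ∈ J
    · have hnot : ¬ (∀ l : Fin b → (V →ₗ[A] V), (∀ i ∈ J.erase j, l i = 0) →
          ∑ i, l i (y i) = 0 → ∀ i, l i = 0) := by
        intro h
        have h1 := hmin _ h
        rw [Finset.card_erase_of_mem hj] at h1
        have h2 : 0 < J.card := Finset.card_pos.mpr ⟨j, hj⟩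
        omega
      push Not at hnot
      obtain ⟨l, hl1, hl2, i₁, hi₁⟩ := hnot
      have hlj : l j ≠ 0 := by
        intro h0
        refine hi₁ (hPJ l ?_ hl2 i₁)
        intro i hi
        by_cases hij : i = j
        · rw [hij, h0]
        · exact hl1 i (Finset.mem_erase.mpr ⟨hij, hi⟩)
      obtain ⟨m, hm1, _⟩ := stp_inv (l j) hlj
      refine ⟨fun i => if i ∈ J then 0 else -(m.comp (l i)), ?_, ?_, fun h => absurd hj h⟩
      · intro i hi
        simp only [if_pos hi]
      · have h3 : ∑ i, ((if i ∈ J then (0 : V →ₗ[A] V) else -(m.comp (l i))) (y i) + m (l i (y i)))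
            = ∑ i, (if i = j then y j else 0) := by
          refine Finset.sum_congr rfl fun i _ => ?_
          by_cases hi : i ∈ J
          · rw [if_pos hi]
            by_cases hij : i = j
            · rw [if_pos hij, hij, hm1]
              simp
            · rw [if_neg hij, hl1 i (Finset.mem_erase.mpr ⟨hij, hi⟩)]
              simp
          · have hij : i ≠ j := fun h => hi (h ▸ hj)
            rw [if_neg hi, if_neg hij]
            simp
        rw [Finset.sum_add_distrib, ← map_sum, hl2, map_zero, add_zero] at h3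
        rw [h3]
        simp
    · refine ⟨fun i => if i = j then LinearMap.id else 0, ?_, ?_, fun _ _ => rfl⟩
      · intro i hi
        have : i ≠ j := fun h => hj (h ▸ hi)
        simp only [if_neg this]
      · rw [Finset.sum_eq_single j]
        · simp
        · intro i _ hij
          simp [hij]
        · simp
  choose κ h1 h2 h3 using hk
  exact ⟨J, κ, (hmin J₀ hP₀).trans hJ₀, hPJ, h1, h2, h3⟩

lemma stp_key (hDEN : DEN_stmt.{u}) {A A' V V' : Type u} [Ring A] [Ring A'] [AddCommGroup V]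
    [Module A V] [AddCommGroup V'] [Module A' V'] [IsSimpleModule A V] {φ : A →+* A'} {b : ℕ}
    (y : Fin b → V) (J : Finset (Fin b)) (κ : Fin b → Fin b → (V →ₗ[A] V))
    (hP : ∀ l : Fin b → (V →ₗ[A] V), (∀ j ∈ J, l j = 0) → ∑ i, l i (y i) = 0 → ∀ i, l i = 0)
    (h1 : ∀ j i, i ∈ J → κ j i = 0) (h2 : ∀ j, y j = ∑ i, κ j i (y i))
    (c : Fin b → (V →ₛₗ[φ] V')) (hc : ∑ j, c j (y j) = 0) (i : Fin b) (hi : i ∉ J) (v : V) :
    ∑ j, c j (κ j i v) = 0 := by
  classical
  obtain ⟨a, ha⟩ := hDEN A V b (fun k => if k ∈ J then 0 else y k) (fun k => if k = i then v else 0)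
    (by
      intro l hl
      have h3 := hP (fun k => if k ∈ J then 0 else l k) (by intro j hj; simp [hj]) (by
        rw [← hl]
        refine Finset.sum_congr rfl fun k _ => ?_
        by_cases hk : k ∈ J <;> simp [hk]) i
      have h4 : l i = 0 := by simpa [hi] using h3
      rw [Finset.sum_eq_single i]
      · simp [h4]
      · intro k _ hki
        simp [hki]
      · simp)
  have ha_i : a • y i = v := by
    have := ha i
    simpa [hi] using this
  have ha_k : ∀ k, k ∉ J → k ≠ i → a • y k = 0 := by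
    intro k hk hki
    have := ha k
    simpa [hk, hki] using this
  have h5 : ∀ j, a • y j = κ j i v := by
    intro j
    rw [h2 j, Finset.smul_sum, Finset.sum_eq_single i]
    · rw [← LinearMap.map_smul, ha_i]
    · intro k _ hki
      by_cases hk : k ∈ J
      · rw [h1 j k hk]
        simp
      · rw [← LinearMap.map_smul, ha_k k hk hki, map_zero]
    · simp
  calc ∑ j, c j (κ j i v) = ∑ j, c j (a • y j) := by simp only [h5]
    _ = φ a • ∑ j, c j (y j) := by
      rw [Finset.smul_sum]
      simp only [map_smulₛₗ]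
    _ = 0 := by rw [hc, smul_zero]

theorem STP (hDEN : DEN_stmt.{u}) : STP_stmt.{u} := by
  classical
  intro A A' V V' _ _ _ _ _ _ _ _ φ ι b g hι hG2 y ν hy hS
  obtain ⟨J, κ, hJ, hP, h1, h2, h3⟩ := stp_J y ν hS
  have hnt : Nontrivial V := IsSimpleModule.nontrivial A V
  obtain ⟨v₀, hv₀⟩ := exists_ne (0 : V)
  -- maps vanishing on the image of ι
  have hZ : ∀ f : V' →ₗ[A'] V', (∀ v, f (ι v) = 0) → f = 0 := by
    intro f hf
    by_contra hne
    obtain ⟨m, hm, _⟩ := stp_inv f hne
    have h4 : ι v₀ = 0 := by rw [← hm (ι v₀), hf, map_zero]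
    exact hv₀ (hι (by rw [h4, map_zero]))
  -- the relation
  have hrel : ∀ l : Fin (b + 1) → (V' →ₗ[A'] V'),
      ∑ i, l i ((Fin.snoc (fun i => ι (y i)) (∑ i, g i (y i)) : Fin (b + 1) → V') i) = 0 →
      ∀ i, i ∉ J → ∀ v, ∑ j, l (Fin.castSucc j) (ι (κ j i v))
        + l (Fin.last b) (∑ j, g j (κ j i v)) = 0 := by
    intro l hl i hi v
    rw [Fin.sum_univ_castSucc] at hl
    simp only [Fin.snoc_castSucc, Fin.snoc_last] at hl
    have hc : ∑ j, (((l (Fin.castSucc j)).comp ι + (l (Fin.last b)).comp (g j)) : V →ₛₗ[φ] V') (y j)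
        = 0 := by
      simp only [LinearMap.add_apply, LinearMap.comp_apply]
      rw [Finset.sum_add_distrib, ← map_sum]
      exact hl
    have h5 := stp_key hDEN y J κ hP h1 h2 _ hc i hi v
    simp only [LinearMap.add_apply, LinearMap.comp_apply] at h5
    rw [Finset.sum_add_distrib, ← map_sum] at h5
    exact h5
  by_cases hA : ∀ l : Fin (b + 1) → (V' →ₗ[A'] V'), (∀ j ∈ J, l (Fin.castSucc j) = 0) →
      ∑ i, l i ((Fin.snoc (fun i => ι (y i)) (∑ i, g i (y i)) : Fin (b + 1) → V') i) = 0 →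
      ∀ i, l i = 0
  · refine ⟨J.map Fin.castSuccEmb, by rw [Finset.card_map]; exact hJ, ?_⟩
    intro l hl hs
    refine hA l (fun j hj => hl _ ?_) hs
    rw [Finset.mem_map]
    exact ⟨j, hj, rfl⟩
  · push Not at hA
    obtain ⟨l0, hl0J, hl0r, i₁, hi₁⟩ := hA
    have hr0 := hrel l0 hl0r
    -- simplification of the first sum
    have hs0 : ∀ i, i ∉ J → ∀ v, l0 (Fin.castSucc i) (ι v)
        + l0 (Fin.last b) (∑ j, g j (κ j i v)) = 0 := by
      intro i hi v
      have h6 := hr0 i hi v
      rw [Finset.sum_eq_single i] at h6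
      · rw [h3 i hi i, if_pos rfl] at h6
        exact h6
      · intro j _ hji
        by_cases hj : j ∈ J
        · rw [hl0J j hj]
          simp
        · rw [h3 j hj i, if_neg (fun h => hji h.symm)]
          simp
      · intro h
        exact absurd (Finset.mem_univ _) h
    have hμ : l0 (Fin.last b) ≠ 0 := by
      intro hμ
      refine hi₁ ?_
      have h7 : ∀ i : Fin b, l0 (Fin.castSucc i) = 0 := by
        intro i
        by_cases hi : i ∈ J
        · exact hl0J i hi
        · refine hZ _ fun v => ?_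
          have h8 := hs0 i hi v
          rw [hμ] at h8
          simpa using h8
      refine Fin.lastCases hμ h7 i₁
    obtain ⟨m, hm1, hm2⟩ := stp_inv _ hμ
    have hI : ∃ i₀, i₀ ∉ J := by
      by_contra hno
      push Not at hno
      refine hy (funext fun j => ?_)
      rw [h2 j]
      refine Finset.sum_eq_zero fun i _ => ?_
      rw [h1 j i (hno i)]
      simp
    obtain ⟨i₀, hi₀⟩ := hI
    have hj₀ : ∃ j₀, ¬ ∃ κ' : V' →ₗ[A'] V', ∀ v, κ' (ι v) = ι (κ j₀ i₀ v) := by
      by_contra hno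
      push Not at hno
      have h9 := hG2 (fun j => κ j i₀) hno ⟨-(m.comp (l0 (Fin.castSucc i₀))), fun v => by
        have h10 := hs0 i₀ hi₀ v
        have h11 : l0 (Fin.last b) (∑ j, g j (κ j i₀ v)) = -(l0 (Fin.castSucc i₀) (ι v)) :=
          eq_neg_of_add_eq_zero_right h10
        calc ∑ j, g j (κ j i₀ v) = m (l0 (Fin.last b) (∑ j, g j (κ j i₀ v))) := (hm1 _).symm
          _ = -(m (l0 (Fin.castSucc i₀) (ι v))) := by rw [h11, map_neg]
          _ = (-(m.comp (l0 (Fin.castSucc i₀)))) (ι v) := by simp⟩ i₀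
      rw [h3 i₀ hi₀ i₀, if_pos rfl] at h9
      have h12 : (LinearMap.id : V →ₗ[A] V) v₀ = 0 := by rw [h9]; simp
      exact hv₀ h12
    obtain ⟨j₀, hj₀⟩ := hj₀
    have hj₀J : j₀ ∈ J := by
      by_contra hn
      refine hj₀ ?_
      by_cases h13 : i₀ = j₀
      · refine ⟨LinearMap.id, fun v => ?_⟩
        rw [h3 j₀ hn i₀, if_pos h13]
        simp
      · refine ⟨0, fun v => ?_⟩
        rw [h3 j₀ hn i₀, if_neg h13]
        simp
    refine ⟨insert (Fin.last b) ((J.erase j₀).map Fin.castSuccEmb), ?_, ?_⟩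
    · refine (Finset.card_insert_le _ _).trans ?_
      rw [Finset.card_map, Finset.card_erase_of_mem hj₀J]
      have : 0 < J.card := Finset.card_pos.mpr ⟨j₀, hj₀J⟩
      omega
    · intro l hl hs
      have hlast : l (Fin.last b) = 0 := hl _ (Finset.mem_insert_self _ _)
      have hlJ : ∀ j ∈ J, j ≠ j₀ → l (Fin.castSucc j) = 0 := by
        intro j hj hne
        refine hl _ (Finset.mem_insert_of_mem ?_)
        rw [Finset.mem_map]
        exact ⟨j, Finset.mem_erase.mpr ⟨hne, hj⟩, rfl⟩
      have hr := hrel l hs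
      have hs1 : ∀ i, i ∉ J → ∀ v, l (Fin.castSucc i) (ι v)
          + l (Fin.castSucc j₀) (ι (κ j₀ i v)) = 0 := by
        intro i hi v
        have h14 := hr i hi v
        have hij : i ≠ j₀ := fun h => hi (h ▸ hj₀J)
        have h15 : ∑ j, l (Fin.castSucc j) (ι (κ j i v))
            = l (Fin.castSucc i) (ι v) + l (Fin.castSucc j₀) (ι (κ j₀ i v)) := by
          rw [← Finset.add_sum_erase _ _ (Finset.mem_univ i),
            ← Finset.add_sum_erase _ _ (Finset.mem_erase.mpr ⟨hij.symm, Finset.mem_univ j₀⟩),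
            Finset.sum_eq_zero, add_zero, h3 i hi i, if_pos rfl]
          · rfl
          · intro j hj
            rw [Finset.mem_erase, Finset.mem_erase] at hj
            by_cases hjJ : j ∈ J
            · rw [hlJ j hjJ hj.1]
              simp
            · rw [h3 j hjJ i, if_neg (fun h => hj.2.1 h.symm)]
              simp
        rw [h15, hlast] at h14
        simpa using h14
      have hlj₀ : l (Fin.castSucc j₀) = 0 := by
        by_contra hne
        obtain ⟨m', hm1', _⟩ := stp_inv _ hne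
        refine hj₀ ⟨-(m'.comp (l (Fin.castSucc i₀))), fun v => ?_⟩
        have h16 := hs1 i₀ hi₀ v
        have h17 : l (Fin.castSucc j₀) (ι (κ j₀ i₀ v)) = -(l (Fin.castSucc i₀) (ι v)) :=
          eq_neg_of_add_eq_zero_right h16
        calc (-(m'.comp (l (Fin.castSucc i₀)))) (ι v) = -(m' (l (Fin.castSucc i₀) (ι v))) := by simp
          _ = m' (l (Fin.castSucc j₀) (ι (κ j₀ i₀ v))) := by rw [h17, map_neg]
          _ = ι (κ j₀ i₀ v) := hm1' _
      have h18 : ∀ i : Fin b, l (Fin.castSucc i) = 0 := by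
        intro i
        by_cases hi : i ∈ J
        · by_cases hij : i = j₀
          · rw [hij, hlj₀]
          · exact hlJ i hi hij
        · refine hZ _ fun v => ?_
          have h19 := hs1 i hi v
          rw [hlj₀] at h19
          simpa using h19
      intro i
      exact Fin.lastCases hlast h18 i

end Pool.Agent.helper96.ZI
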